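import Mathlib
import Pool.Agent.H86.SeqCard

set_option autoImplicit false

namespace Pool.Agent.Results.MP_412c32_gt.RsEqB

open Set Filter Topology Cardinal

/-- the bounding number: the least size of a family of integer sequences that is not eventually
dominated by a single sequence -/
noncomputable def boundingNumber : Cardinal :=
  sInf {c | ∃ F : Set (ℕ → ℕ), #F = c ∧ ¬ ∃ g : ℕ → ℕ, ∀ f ∈ F, ∀ᶠ n in atTop, f n ≤ g n}

/-- `t` is the finest Hausdorff group topology in which all members of `S` converge to `1` -/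
def Generates {G : Type} [Group G] (S : Set (ℕ → G)) (t : TopologicalSpace G) : Prop :=
  IsLeast {s : TopologicalSpace G | @IsTopologicalGroup G s _ ∧ @T2Space G s ∧
    ∀ u ∈ S, Tendsto u atTop (@nhds G s 1)} t

theorem result (G : Type) [Group G] [τ : TopologicalSpace G] [IsTopologicalGroup G] [Countable G]
    [TopologicalSpace.MetrizableSpace G] (hnd : ¬ DiscreteTopology G) :
    IsLeast {c : Cardinal | ∃ S : Set (ℕ → G), Generates S τ ∧ #S = c} boundingNumber := by
  have hmem : boundingNumber ∈ {c | ∃ F : Set (ℕ → ℕ), #F = c ∧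
      ¬ ∃ g : ℕ → ℕ, ∀ f ∈ F, ∀ᶠ n in atTop, f n ≤ g n} :=
    csInf_mem ⟨_, univ, rfl, H86.SeqCard.unbdd_univ⟩
  obtain ⟨F, hF, hF'⟩ := hmem
  have hlow : ∀ S : Set (ℕ → G), Generates S τ → boundingNumber ≤ #S := by
    intro S hS
    by_contra hlt
    rw [not_le] at hlt
    have hℵ : ℵ₀ < boundingNumber := by
      by_contra h
      rw [not_lt, ← hF, le_aleph0_iff_set_countable] at h
      exact H86.SeqCard.not_unbdd_of_countable h hF'
    obtain ⟨T, hT, hT'⟩ := H86.SeqCard.lower hnd (fun u : S => u.1) (fun u => hS.1.2.2 u u.2) (by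
      intro f hf
      have h1 : boundingNumber ≤ #(range f) := csInf_le' ⟨_, rfl, hf⟩
      refine (h1.trans mk_range_le).not_gt ?_
      rw [mk_prod, lift_id, lift_id]
      exact mul_lt_of_lt hℵ.le hlt (mk_le_aleph0.trans_lt hℵ))
    refine hT' (le_trans (hS.2 (show T.toTopologicalSpace ⊓ τ ∈ _ from ⟨?_, ?_, fun u hu => ?_⟩)) inf_le_left)
    · exact topologicalGroup_inf T.toIsTopologicalGroup hS.1.1
    · exact t2Space_antitone inf_le_right hS.1.2.1
    · rw [@nhds_inf G T.toTopologicalSpace τ 1]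
      exact tendsto_inf.2 ⟨hT ⟨u, hu⟩, hS.1.2.2 u hu⟩
  obtain ⟨y, hy, hy'⟩ := H86.SeqCard.upper (G := G)
  have hgen : Generates (y '' F) τ := by
    refine ⟨⟨inferInstance, inferInstance, ?_⟩, ?_⟩
    · rintro _ ⟨f, -, rfl⟩
      exact hy f
    · rintro s ⟨hs, -, hs'⟩
      refine continuous_id_iff_le.1 (@continuous_of_continuousAt_one G τ _ _ G _ _ s
        hs.toContinuousMul _ _ (MonoidHom.id G) ?_)
      intro V hV
      exact hy' F hF' V (@mem_of_mem_nhds G s _ _ hV) fun f hf => hs' _ ⟨f, hf, rfl⟩ hV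
  refine ⟨⟨y '' F, hgen, le_antisymm (mk_image_le.trans hF.le) (hlow _ hgen)⟩, ?_⟩
  rintro _ ⟨S, hS, rfl⟩
  exact hlow S hS

end Pool.Agent.Results.MP_412c32_gt.RsEqB
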