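import Mathlib

set_option autoImplicit false

namespace Pool.Agent.Results.MP_412c32_gt.SymRankOne

open Set Filter Topology Cardinal Equiv

/-- the topology of pointwise convergence on the group of all permutations of `ℕ` -/
@[reducible] def pointwise : TopologicalSpace (Equiv.Perm ℕ) :=
  TopologicalSpace.induced (fun g => (g : ℕ → ℕ)) inferInstance

/-- `t` is the finest Hausdorff group topology in which all members of `S` converge to `1` -/
def Generates {G : Type} [Group G] (S : Set (ℕ → G)) (t : TopologicalSpace G) : Prop :=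
  IsLeast {s : TopologicalSpace G | @IsTopologicalGroup G s _ ∧ @T2Space G s ∧
    ∀ u ∈ S, Tendsto u atTop (@nhds G s 1)} t

theorem tendsto_iff {β : Type} (l : Filter β) (x : β → Perm ℕ) (g : Perm ℕ) :
    Tendsto x l (@nhds _ pointwise g) ↔ ∀ p, ∀ᶠ k in l, x k p = g p := by
  rw [nhds_induced, tendsto_comap_iff, tendsto_pi_nhds]
  simp

theorem pw_group : @IsTopologicalGroup _ pointwise _ := by
  letI := pointwise
  have h : ∀ (g : Perm ℕ) p, ∀ᶠ x in 𝓝 g, x p = g p := fun g => (tendsto_iff _ _ g).1 tendsto_id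
  refine { continuous_mul := continuous_iff_continuousAt.2 fun a => (tendsto_iff _ _ _).2 fun p => ?_
           continuous_inv := continuous_iff_continuousAt.2 fun a => (tendsto_iff _ _ _).2 fun p => ?_ }
  · filter_upwards [continuous_fst.continuousAt (h a.1 (a.2 p)),
      continuous_snd.continuousAt (h a.2 p)] with x h1 h2
    simp only [mem_preimage, mem_ofPred_eq] at h1 h2
    simp [h1, h2]
  · filter_upwards [h a (a⁻¹ p)] with x hx
    rw [Perm.inv_eq_iff_eq, hx]
    simp

theorem pw_emb : @IsEmbedding _ _ pointwise _ (fun g : Perm ℕ => (g : ℕ → ℕ)) :=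
  @IsEmbedding.mk _ _ pointwise _ _ (@IsInducing.mk _ _ pointwise _ _ rfl) DFunLike.coe_injective

abbrev St : Type := Option (ℕ × ℤ)
abbrev Om : Type := ℕ × ℕ

def s (k : ℕ) : Perm St where
  toFun a := match a with
    | none => some (k, 1)
    | some (j, i) => if j = k then (if i = 0 then none else some (j, i + 1)) else some (j, i)
  invFun a := match a with
    | none => some (k, 0)
    | some (j, i) => if j = k then (if i = 1 then none else some (j, i - 1)) else some (j, i)
  left_inv := by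
    rintro (_ | ⟨j, i⟩)
    · simp
    · by_cases h : j = k <;> by_cases h' : i = 0 <;> simp [h, h']
  right_inv := by
    rintro (_ | ⟨j, i⟩)
    · simp
    · by_cases h : j = k <;> by_cases h' : i = 1 <;> simp [h, h', sub_eq_zero]

def t (k : ℕ) : Perm (Om × St) := prodCongrRight fun p => if k < p.1 then s k else 1

theorem swindle (Y : ℕ → Perm Om) (hY : ∀ k p, p.1 ≤ k → Y k p = p) :
    ∃ w : Perm (Om × St), ∀ k,
      t k * (prodCongrLeft fun a => if a = none then Y k else 1) * w = w * t k := by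
  let W : St → Perm Om := fun a => match a with
    | none => 1
    | some (j, i) => if 0 < i then Y j else 1
  refine ⟨prodCongrLeft W, fun k => Equiv.ext ?_⟩
  have h1 : ∀ p, k < (Y k p).1 ↔ k < p.1 := by
    intro p
    constructor <;> intro h <;> by_contra h'
    · rw [hY k p (not_lt.1 h')] at h
      exact h' h
    · rw [(Y k).injective (hY k _ (not_lt.1 h'))] at h'
      exact h' h
  rintro ⟨p, _ | ⟨j, i⟩⟩
  · by_cases h : k < p.1
    · simp [t, W, s, h, h1]
    · simp [t, W, h, hY k p (not_lt.1 h)]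
  · by_cases hj : j = k
    · subst hj
      by_cases h : j < p.1
      · rcases lt_trichotomy i 0 with hi | rfl | hi
        · have : ¬ 0 < i + 1 := by omega
          simp [t, W, s, h, hi.ne, hi.not_gt, this]
        · simp [t, W, s, h]
        · have : 0 < i + 1 := by omega
          simp [t, W, s, h, hi.ne', hi, this, h1]
      · by_cases hi : 0 < i <;> simp [t, W, h, hi, hY j p (not_lt.1 h)]
    · have h2 : ∀ (c : Prop) [Decidable c], (if c then s k else 1) (some (j, i)) = some (j, i) := by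
        intro c _
        split_ifs <;> simp [s, hj]
      simp [t, h2]

noncomputable def e₀ : ℕ ≃ Om × St := (nonempty_equiv_of_countable (α := ℕ) (β := Om × St)).some

noncomputable def u (k : ℕ) : Perm ℕ := e₀.symm.permCongr (t k)

theorem u_null (p : ℕ) : ∀ᶠ k in atTop, u k p = p := by
  filter_upwards [eventually_ge_atTop (e₀ p).1.1] with k hk
  have : t k (e₀ p) = e₀ p := by
    rcases h : e₀ p with ⟨a, b⟩
    rw [h] at hk
    simp [t, hk.not_gt]
  simp [u, this]

theorem frag (y : ℕ → Perm ℕ) (hy : ∀ p, ∀ᶠ k in atTop, y k p = p) (B : Set ℕ) (hB : B.Infinite)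
    (hyB : ∀ k, ∀ p ∈ B, y k p = p) :
    ∃ g g' : Perm ℕ, ∀ k, y k = (g * u k * g⁻¹)⁻¹ * (g' * u k * g'⁻¹) := by
  classical
  choose l hl using fun p => eventually_atTop.1 (hy p)
  let ι : ℕ ↪ Om := ⟨fun p => (l p, p), fun a b h => congrArg Prod.snd h⟩
  obtain ⟨w, hw⟩ := swindle (fun k => (y k).viaEmbedding ι) (by
    intro k p hp
    by_cases h : p ∈ range ι
    · obtain ⟨q, rfl⟩ := h
      rw [Perm.viaEmbedding_apply, hl q k hp]
    · exact Perm.viaEmbedding_apply_of_notMem _ _ _ h)
  let f : ↥(Bᶜ) ↪ Om × St :=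
    ⟨fun p => (ι p, none), fun a b h => Subtype.ext (ι.injective (congrArg Prod.fst h))⟩
  obtain ⟨e, he⟩ := extend_function f (by
    haveI : Infinite ↥(Bᶜᶜ) := by rw [compl_compl]; exact hB.to_subtype
    haveI : Infinite ↥((range f)ᶜ) := by
      refine Infinite.of_injective
        (fun n : ℕ => (⟨((0, 0), some (n, 0)), ?_⟩ : ↥((range f)ᶜ))) fun a b h => by simpa using h
      rintro ⟨p, hp⟩
      simp [f] at hp
    exact nonempty_equiv_of_countable)
  have key : ∀ k, e.permCongr (y k) =
      prodCongrLeft fun a => if a = none then (y k).viaEmbedding ι else 1 := by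
    intro k
    refine Equiv.ext fun x => ?_
    obtain ⟨p, rfl⟩ := e.surjective x
    rw [permCongr_apply, symm_apply_apply]
    by_cases hp : p ∈ B
    · rw [hyB k p hp]
      rcases h : e p with ⟨a, _ | b⟩
      · by_cases ha : a ∈ range ι
        · obtain ⟨q, rfl⟩ := ha
          by_cases hq : q ∈ B
          · simp [Perm.viaEmbedding_apply, hyB k q hq]
          · obtain rfl : p = q := e.injective (h.trans (he ⟨q, hq⟩).symm)
            exact absurd hp hq
        · simp [Perm.viaEmbedding_apply_of_notMem _ _ _ ha]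
      · simp
    · have hq : y k p ∉ B := fun h => hp ((y k).injective (hyB k _ h) ▸ h)
      rw [he ⟨p, hp⟩, he ⟨_, hq⟩]
      simp [f, Perm.viaEmbedding_apply]
  refine ⟨e₀.trans e.symm, e₀.trans (w.trans e.symm), fun k => ?_⟩
  have h1 := hw k
  rw [← key k] at h1
  rw [eq_inv_mul_iff_mul_eq, eq_mul_inv_iff_mul_eq]
  refine Equiv.ext fun p => ?_
  have h2 := congrArg (fun z : Perm (Om × St) => e.symm (z (e₀ p))) h1
  simpa [u, Perm.inv_def] using h2

theorem split (x : ℕ → Perm ℕ) (hx : ∀ p, ∀ᶠ k in atTop, x k p = p) :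
    ∃ (a b : ℕ → Perm ℕ) (A B : Set ℕ), (∀ k, x k = b k * a k) ∧ A.Infinite ∧ B.Infinite ∧
      (∀ p, ∀ᶠ k in atTop, a k p = p) ∧ (∀ p, ∀ᶠ k in atTop, b k p = p) ∧
      (∀ k, ∀ p ∈ A, a k p = p) ∧ ∀ k, ∀ p ∈ B, b k p = p := by
  classical
  have hfin : ∀ p, {q | ¬ (p ≠ q ∧ ∀ k, x k p ≠ q ∧ x k q ≠ p)}.Finite := by
    intro p
    obtain ⟨N, hN⟩ := eventually_atTop.1 (hx p)
    refine ((((finite_Iio N).image fun k => x k p).union
      ((finite_Iio N).image fun k => (x k)⁻¹ p)).insert p).subset fun q hq => ?_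
    by_contra h
    simp only [mem_insert_iff, mem_union, mem_image, mem_Iio, not_or, not_exists, not_and] at h
    refine hq ⟨Ne.symm h.1, fun k => ?_⟩
    rcases lt_or_ge k N with hk | hk
    · exact ⟨h.2.1 k hk, fun h' => h.2.2 k hk (by simp [← h'])⟩
    · exact ⟨fun h' => h.1 (h'.symm.trans (hN k hk)),
        fun h' => h.1 ((x k).injective (h'.trans (hN k hk).symm))⟩
  obtain ⟨c, -, hc⟩ := exists_seq_of_forall_finset_exists (fun _ : ℕ => True)
    (fun p q => p ≠ q ∧ ∀ k, x k p ≠ q ∧ x k q ≠ p) (fun F _ => by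
      obtain ⟨q, hq⟩ := (F.finite_toSet.biUnion fun p _ => hfin p).exists_notMem
      refine ⟨q, trivial, fun p hp => ?_⟩
      by_contra h
      exact hq (mem_biUnion hp h))
  have hc' : ∀ m n, m ≠ n → c m ≠ c n ∧ ∀ k, x k (c m) ≠ c n := by
    intro m n h
    rcases h.lt_or_gt with h | h
    · exact ⟨(hc m n h).1, fun k => ((hc m n h).2 k).1⟩
    · exact ⟨(hc n m h).1.symm, fun k => ((hc n m h).2 k).2⟩
  have hci : Function.Injective c := fun m n h => by
    by_contra h'
    exact (hc' m n h').1 h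
  let A : Set ℕ := range fun n => c (2 * n)
  let β : ℕ → ℕ → ℕ := fun k p => if p ∈ A then x k p else if (x k)⁻¹ p ∈ A then (x k)⁻¹ p else p
  have hβ : ∀ k, Function.Involutive (β k) := by
    intro k p
    by_cases h : p ∈ A
    · by_cases h' : x k p ∈ A
      · have : x k p = p := by
          obtain ⟨m, rfl⟩ := h
          obtain ⟨n, hn⟩ := h'
          by_contra h''
          exact (hc' (2 * m) (2 * n) (fun h3 => h'' (hn.symm.trans (congrArg c h3.symm)))).2 k hn.symm
        simp [β, h, this]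
      · simp [β, h, h']
    · by_cases h' : (x k)⁻¹ p ∈ A
      · simp only [β, if_neg h, if_pos h']
        simp
      · simp only [β, if_neg h, if_neg h']
  have hfix : ∀ k p, x k p = p → β k p = p := by
    intro k p h
    have : (x k)⁻¹ p = p := Perm.inv_eq_iff_eq.2 h.symm
    simp only [β, h, this, ite_self]
  refine ⟨fun k => ((hβ k).toPerm _)⁻¹ * x k, fun k => (hβ k).toPerm _, A,
    range fun n => c (2 * n + 1), fun k => by simp,
    infinite_range_of_injective (hci.comp fun a b h => by simpa using h),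
    infinite_range_of_injective (hci.comp fun a b h => by simpa using h),
    fun p => (hx p).mono fun k hk => ?_, fun p => (hx p).mono fun k hk => hfix k p hk,
    fun k p hp => ?_, ?_⟩
  · rw [Perm.mul_apply, hk, Perm.inv_eq_iff_eq]
    exact (hfix k p hk).symm
  · rw [Perm.mul_apply, Perm.inv_eq_iff_eq]
    simp [β, hp]
  · rintro k _ ⟨n, rfl⟩
    have h1 : c (2 * n + 1) ∉ A := by
      rintro ⟨m, hm⟩
      have := hci hm
      omega
    have h2 : (x k)⁻¹ (c (2 * n + 1)) ∉ A := by
      rintro ⟨m, hm⟩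
      exact (hc' (2 * m) (2 * n + 1) (by omega)).2 k (by simp [hm])
    show β k _ = _
    simp only [β, if_neg h1, if_neg h2]

theorem result :
    @IsTopologicalGroup (Equiv.Perm ℕ) pointwise _ ∧
    @TopologicalSpace.SeparableSpace (Equiv.Perm ℕ) pointwise ∧
    @TopologicalSpace.MetrizableSpace (Equiv.Perm ℕ) pointwise ∧
    ¬ @DiscreteTopology (Equiv.Perm ℕ) pointwise ∧
    IsLeast {c : Cardinal | ∃ S : Set (ℕ → Equiv.Perm ℕ), Generates S pointwise ∧ #S = c} 1 := by
  letI := pointwise
  haveI := pw_group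
  haveI := pw_emb.secondCountableTopology
  haveI := pw_emb.metrizableSpace
  have hnd : ¬ DiscreteTopology (Perm ℕ) := by
    intro hd
    have h1 : Tendsto (fun k => swap k (k + 1)) atTop (𝓝 (1 : Perm ℕ)) :=
      (tendsto_iff _ _ _).2 fun p => (eventually_gt_atTop p).mono fun k hk =>
        swap_apply_of_ne_of_ne (by omega) (by omega)
    rw [nhds_discrete, tendsto_pure] at h1
    obtain ⟨k, hk⟩ := h1.exists
    simpa using congrArg (fun z : Perm ℕ => z k) hk
  refine ⟨inferInstance, inferInstance, inferInstance, hnd, ⟨{u}, ⟨⟨inferInstance, inferInstance, ?_⟩,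
    ?_⟩, mk_singleton _⟩, ?_⟩
  · rintro _ rfl
    exact (tendsto_iff _ _ _).2 u_null
  · rintro σ ⟨hσ, -, hu⟩
    have hu := hu u rfl
    refine continuous_id_iff_le.1 (@continuous_of_continuousAt_one _ pointwise _ _ _ _ _ σ
      hσ.toContinuousMul _ _ (MonoidHom.id _) ?_)
    refine (@tendsto_iff_seq_tendsto _ _ _ (@nhds _ pointwise 1) (@nhds _ σ 1) _).2 fun x hx => ?_
    obtain ⟨a, b, A, B, h1, hA, hB, ha, hb, haA, hbB⟩ := split x ((tendsto_iff _ _ _).1 hx)
    obtain ⟨g₁, g₂, hg⟩ := frag a ha A hA haA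
    obtain ⟨g₃, g₄, hg'⟩ := frag b hb B hB hbB
    letI := σ
    have h2 : ∀ g : Perm ℕ, Tendsto (fun k => g * u k * g⁻¹) atTop (𝓝 1) := fun g => by
      simpa using (hu.const_mul g).mul_const g⁻¹
    have h3 := ((h2 g₃).inv.mul (h2 g₄)).mul ((h2 g₁).inv.mul (h2 g₂))
    simp only [← hg, ← hg', ← h1, inv_one, mul_one] at h3
    exact h3
  · rintro _ ⟨S, hS, rfl⟩
    rw [Cardinal.one_le_iff_ne_zero, mk_ne_zero_iff, nonempty_coe_sort]
    by_contra h
    rw [not_nonempty_iff_eq_empty] at h
    subst h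
    refine hnd ⟨le_bot_iff.1 (hS.2 ⟨?_, ?_, fun _ h => h.elim⟩)⟩
    · letI : TopologicalSpace (Perm ℕ) := ⊥
      haveI : DiscreteTopology (Perm ℕ) := ⟨rfl⟩
      infer_instance
    · letI : TopologicalSpace (Perm ℕ) := ⊥
      haveI : DiscreteTopology (Perm ℕ) := ⟨rfl⟩
      infer_instance

end Pool.Agent.Results.MP_412c32_gt.SymRankOne
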